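import Pool.Agent.Y245.SC.Stm4

/-!
# Laplace's method with two scales
-/

set_option autoImplicit false

namespace Pool.Agent.Y290.ES

open Pool.Agent.Y245.SC Set Filter Topology MeasureTheory Complex

theorem gauss_int (g0 : ℂ) : ∫ u : ℝ, ((Real.exp (-(u ^ 2 / 2)) : ℝ) : ℂ) * g0 =
    ((√(2 * Real.pi) : ℝ) : ℂ) * g0 := by
  rw [integral_mul_const]
  congr 1
  have h1 : ∫ u : ℝ, ((Real.exp (-(u ^ 2 / 2)) : ℝ) : ℂ) =
      ((∫ u : ℝ, Real.exp (-(u ^ 2 / 2)) : ℝ) : ℂ) := integral_ofReal
  rw [h1]
  congr 1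
  have h2 := integral_gaussian (1 / 2)
  rw [show Real.pi / (1 / 2) = 2 * Real.pi by ring] at h2
  rw [← h2]
  congr 1
  funext u
  congr 1
  ring

/-- elementary facts on the scales -/
theorem scale {A : ℝ} {N : ℕ} (hN : (1 : ℝ) ≤ N) (hA : (N : ℝ) ^ 4 ≤ A) :
    0 < A ∧ √(A * N) ^ 2 = A * N ∧ (N : ℝ) ^ 2 ≤ √(A * N) ∧ √(A * N) ≤ A ∧
      √A ≤ A / (N : ℝ) ^ 2 := by
  have h1 : (1 : ℝ) ≤ (N : ℝ) ^ 4 := one_le_pow₀ hN
  have hA0 : 0 < A := by linarith
  have hNA : (N : ℝ) ≤ A := by
    have : (N : ℝ) ≤ (N : ℝ) ^ 4 := by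
      calc (N : ℝ) = (N : ℝ) ^ 1 := (pow_one _).symm
        _ ≤ (N : ℝ) ^ 4 := pow_le_pow_right₀ hN (by norm_num)
    linarith
  refine ⟨hA0, Real.sq_sqrt (by positivity), ?_, ?_, ?_⟩
  · apply Real.le_sqrt_of_sq_le
    nlinarith
  · rw [Real.sqrt_le_left hA0.le]
    nlinarith
  · have h2 : (N : ℝ) ^ 2 ≤ √A := Real.le_sqrt_of_sq_le (by nlinarith)
    rw [le_div_iff₀ (by positivity)]
    calc √A * (N : ℝ) ^ 2 ≤ √A * √A := mul_le_mul_of_nonneg_left h2 (Real.sqrt_nonneg _)
      _ = A := Real.mul_self_sqrt hA0.le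

theorem lape : S_LAPE := by
  intro A N P g C g0 hg0 hN hA hP hg h1 h2 h3 h4 h5
  have hpi := Real.pi_pos
  have hpi3 := Real.pi_gt_three
  have hC : 0 ≤ C := (norm_nonneg _).trans (h4 0 0 ⟨by linarith, hpi.le⟩)
  have hNR : Tendsto (fun k => (N k : ℝ)) atTop atTop := tendsto_natCast_atTop_atTop.comp hN
  have hev : ∀ᶠ k in atTop, (1 : ℝ) ≤ N k := hNR.eventually_ge_atTop 1
  have hAlim : Tendsto A atTop atTop := by
    refine tendsto_atTop_mono' _ ?_ hNR
    filter_upwards [hev] with k hk
    refine le_trans ?_ (hA k)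
    calc (N k : ℝ) = (N k : ℝ) ^ 1 := (pow_one _).symm
      _ ≤ (N k : ℝ) ^ 4 := pow_le_pow_right₀ hk (by norm_num)
  set s : ℕ → ℝ := fun k => √(A k * N k) with hs
  set F : ℕ → ℝ → ℂ := fun k θ => exp (A k * P k θ) * g k θ with hF
  have hFc : ∀ k, ContinuousOn (F k) (Icc (-Real.pi) Real.pi) := fun k =>
    ((continuousOn_const.mul (hP k)).cexp).mul (hg k)
  set M : ℕ → ℂ := fun k => ∫ u : ℝ, (Ioc (-(s k / N k)) (s k / N k)).indicator
    (fun u => F k (u / s k)) u with hM
  -- the size of the integrand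
  have hnorm : ∀ k θ, ‖F k θ‖ = Real.exp (A k * (P k θ).re) * ‖g k θ‖ := by
    intro k θ
    rw [hF]
    simp only
    rw [norm_mul, Complex.norm_exp]
    congr 2
    rw [Complex.re_ofReal_mul]
  have hM1 : Tendsto M atTop (𝓝 (∫ u : ℝ, ((Real.exp (-(u ^ 2 / 2)) : ℝ) : ℂ) * g0)) := by
    apply tendsto_integral_filter_of_dominated_convergence
      (bound := fun u => Real.exp (-(1 / 8) * u ^ 2) * C)
    · filter_upwards [hev] with k hk
      obtain ⟨a1, a2, a3, a4, a5⟩ := scale hk (hA k)
      have hs0 : 0 < s k := by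
        have : (0 : ℝ) < (N k : ℝ) ^ 2 := by positivity
        exact this.trans_le a3
      rw [aestronglyMeasurable_indicator_iff measurableSet_Ioc]
      apply ContinuousOn.aestronglyMeasurable _ measurableSet_Ioc
      refine (hFc k).comp (continuous_id.div_const _).continuousOn ?_
      intro u hu
      have e1 : s k / N k / s k = 1 / N k := by field_simp
      have e2 : (1 : ℝ) / N k ≤ 1 := by
        rw [div_le_one (by linarith)]
        exact hk
      have b1 : u / s k ≤ s k / N k / s k := by gcongr; exact hu.2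
      have b2 : -(s k / N k) / s k ≤ u / s k := by gcongr; exact hu.1.le
      rw [neg_div, e1] at b2
      rw [e1] at b1
      constructor
      · simp only [id]; linarith
      · simp only [id]; linarith
    · filter_upwards [hev] with k hk
      obtain ⟨a1, a2, a3, a4, a5⟩ := scale hk (hA k)
      have hs0 : 0 < s k := by
        have : (0 : ℝ) < (N k : ℝ) ^ 2 := by positivity
        exact this.trans_le a3
      refine Eventually.of_forall fun u => ?_
      by_cases hu : u ∈ Ioc (-(s k / N k)) (s k / N k)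
      · rw [indicator_of_mem hu, hnorm]
        have e1 : s k / N k / s k = 1 / N k := by field_simp
        have b1 : u / s k ≤ s k / N k / s k := by gcongr; exact hu.2
        have b2 : -(s k / N k) / s k ≤ u / s k := by gcongr; exact hu.1.le
        rw [neg_div, e1] at b2
        rw [e1] at b1
        have e2 : (1 : ℝ) / N k ≤ 1 := by
          rw [div_le_one (by linarith)]
          exact hk
        have b3 := h1 k (u / s k) (abs_le.2 ⟨b2, b1⟩)
        have b4 := h4 k (u / s k) ⟨by linarith, by linarith⟩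
        have b5 : A k * (P k (u / s k)).re ≤ -(1 / 8) * u ^ 2 := by
          have b6 := mul_le_mul_of_nonneg_left b3 a1.le
          have e3 : A k * -(N k * (u / s k) ^ 2 / 8) = -(1 / 8) * u ^ 2 := by
            have : A k * N k = s k ^ 2 := a2.symm
            have hs1 : s k ≠ 0 := hs0.ne'
            rw [div_pow]
            field_simp
            linear_combination (-u ^ 2) * this
          linarith
        gcongr
      · rw [indicator_of_notMem hu, norm_zero]
        positivity
    · exact (integrable_exp_neg_mul_sq (by norm_num : (0 : ℝ) < 1 / 8)).mul_const C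
    · refine Eventually.of_forall fun u => ?_
      -- eventually `|u| < s / N`
      have hsN : ∀ᶠ k in atTop, |u| < s k / N k := by
        filter_upwards [hev, hNR.eventually_gt_atTop |u|] with k hk hk2
        obtain ⟨a1, a2, a3, a4, a5⟩ := scale hk (hA k)
        refine hk2.trans_le ?_
        rw [le_div_iff₀ (by linarith)]
        calc (N k : ℝ) * N k = (N k : ℝ) ^ 2 := (sq _).symm
          _ ≤ s k := a3
      -- the exponent
      have hexp : Tendsto (fun k => (A k : ℂ) * P k (u / s k)) atTop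
          (𝓝 ((-(u ^ 2 / 2) : ℝ) : ℂ)) := by
        rw [tendsto_iff_norm_sub_tendsto_zero]
        have hb : Tendsto (fun k => C * (u ^ 2 * (N k : ℝ) ^ (-(1 / 8) : ℝ) +
            |u| ^ 3 * (N k : ℝ)⁻¹)) atTop (𝓝 (C * (u ^ 2 * 0 + |u| ^ 3 * 0))) := by
          refine (((tendsto_rpow_neg_atTop (by norm_num : (0 : ℝ) < 1 / 8)).comp hNR).const_mul
            (u ^ 2) |>.add ((tendsto_inv_atTop_zero.comp hNR).const_mul (|u| ^ 3))).const_mul C
        rw [mul_zero, mul_zero, add_zero, mul_zero] at hb
        refine squeeze_zero' (Eventually.of_forall fun k => norm_nonneg _) ?_ hb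
        filter_upwards [hev, hsN] with k hk hk2
        obtain ⟨a1, a2, a3, a4, a5⟩ := scale hk (hA k)
        have hNp : (0 : ℝ) < N k := by linarith
        have hs0 : 0 < s k := by
          have : (0 : ℝ) < (N k : ℝ) ^ 2 := by positivity
          exact this.trans_le a3
        have hAN : A k * N k = s k ^ 2 := a2.symm
        have b1 : |u / s k| ≤ 1 / N k := by
          rw [abs_div, abs_of_pos hs0, div_le_div_iff₀ hs0 hNp]
          rw [lt_div_iff₀ hNp] at hk2
          linarith
        have b2 := h3 k (u / s k) b1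
        have e1 : (A k : ℂ) * P k (u / s k) - ((-(u ^ 2 / 2) : ℝ) : ℂ) =
            (A k : ℂ) * (P k (u / s k) + N k * ((u / s k : ℝ) : ℂ) ^ 2 / 2) := by
          have e2 : (A k : ℂ) * (N k * ((u / s k : ℝ) : ℂ) ^ 2 / 2) = ((u ^ 2 / 2 : ℝ) : ℂ) := by
            have e3 : A k * (N k * (u / s k) ^ 2 / 2) = u ^ 2 / 2 := by
              rw [div_pow]
              field_simp
              linear_combination (u ^ 2) * hAN
            exact_mod_cast e3
          rw [mul_add, e2]
          push_cast
          ring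
        rw [e1, norm_mul, Complex.norm_real, Real.norm_eq_abs, abs_of_pos a1]
        refine (mul_le_mul_of_nonneg_left b2 a1.le).trans ?_
        have e4 : A k * (C * ((N k : ℝ) ^ (7 / 8 : ℝ) * (u / s k) ^ 2 +
            (N k : ℝ) ^ 2 * |u / s k| ^ 3)) =
            C * (u ^ 2 * (N k : ℝ) ^ (-(1 / 8) : ℝ) + |u| ^ 3 * (N k / s k)) := by
          have e5 : (N k : ℝ) ^ (-(1 / 8) : ℝ) = (N k : ℝ) ^ (7 / 8 : ℝ) / N k := by
            rw [show (-(1 / 8) : ℝ) = 7 / 8 - 1 by norm_num, Real.rpow_sub hNp, Real.rpow_one]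
          rw [e5, abs_div, abs_of_pos hs0, div_pow, div_pow]
          have hs1 : s k ≠ 0 := hs0.ne'
          have hN1 : (N k : ℝ) ≠ 0 := hNp.ne'
          have e6 : A k = s k ^ 2 / N k := by
            rw [eq_div_iff hN1]
            exact hAN
          rw [e6]
          field_simp
        rw [e4]
        have e7 : N k / s k ≤ (N k : ℝ)⁻¹ := by
          rw [div_le_iff₀ hs0, inv_mul_eq_div, le_div_iff₀ hNp]
          calc (N k : ℝ) * N k = (N k : ℝ) ^ 2 := (sq _).symm
            _ ≤ s k := a3
        gcongr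
      have hlim := (hexp.cexp).mul (h5 u)
      rw [← Complex.ofReal_exp] at hlim
      refine hlim.congr' ?_
      filter_upwards [hsN] with k hk
      rw [indicator_of_mem]
      rw [abs_lt] at hk
      exact ⟨hk.1, hk.2.le⟩
  -- the error
  have herr : ∀ᶠ k in atTop, ‖(s k : ℂ) * (∫ θ in (-Real.pi)..Real.pi, F k θ) - M k‖ ≤
      2 * Real.pi * C * (A k * Real.exp (-(√(A k) / 16))) := by
    filter_upwards [hev] with k hk
    obtain ⟨a1, a2, a3, a4, a5⟩ := scale hk (hA k)
    have hNp : (0 : ℝ) < N k := by linarith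
    have hs0 : 0 < s k := by
      have : (0 : ℝ) < (N k : ℝ) ^ 2 := by positivity
      exact this.trans_le a3
    have e2 : (1 : ℝ) / N k ≤ 1 := by
      rw [div_le_one (by linarith)]
      exact hk
    have e3 : (0 : ℝ) < 1 / N k := by positivity
    have hii : ∀ a b : ℝ, -Real.pi ≤ a → a ≤ b → b ≤ Real.pi →
        IntervalIntegrable (F k) volume a b := by
      intro a b ha hab hb
      apply ContinuousOn.intervalIntegrable
      rw [uIcc_of_le hab]
      exact (hFc k).mono (Icc_subset_Icc ha hb)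
    have i1 := hii (-Real.pi) (-(1 / N k)) le_rfl (by linarith) (by linarith)
    have i2 := hii (-(1 / N k)) (1 / N k) (by linarith) (by linarith) (by linarith)
    have i3 := hii (1 / N k) Real.pi (by linarith) (by linarith) le_rfl
    have i4 := hii (-Real.pi) (1 / N k) (by linarith) (by linarith) (by linarith)
    have hsplit : ∫ θ in (-Real.pi)..Real.pi, F k θ =
        (∫ θ in (-Real.pi)..(-(1 / N k)), F k θ) + (∫ θ in (-(1 / N k))..(1 / N k), F k θ) +
          ∫ θ in (1 / N k : ℝ)..Real.pi, F k θ := by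
      rw [intervalIntegral.integral_add_adjacent_intervals i1 i2,
        intervalIntegral.integral_add_adjacent_intervals i4 i3]
    have hMk : M k = (s k : ℂ) * ∫ θ in (-(1 / N k : ℝ))..(1 / N k), F k θ := by
      rw [hM]
      simp only
      rw [integral_indicator measurableSet_Ioc, ← intervalIntegral.integral_of_le (by
        have : 0 < s k / N k := by positivity
        linarith), intervalIntegral.integral_comp_div (fun θ => F k θ) hs0.ne']
      have e4 : s k / N k / s k = 1 / N k := by field_simp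
      rw [neg_div, e4, Complex.real_smul]
    have hbd : ∀ θ : ℝ, 1 / (N k : ℝ) ≤ |θ| → |θ| ≤ Real.pi →
        ‖F k θ‖ ≤ Real.exp (-(√(A k) / 16)) * C := by
      intro θ hθ1 hθ2
      rw [hnorm]
      have b1 := h2 k θ hθ1 hθ2
      have b2 := h4 k θ (abs_le.1 hθ2)
      have b3 : (1 / (N k : ℝ)) ^ 2 ≤ θ ^ 2 := by
        rw [← sq_abs θ]
        gcongr
      have b4 : A k * (P k θ).re ≤ -(√(A k) / 16) := by
        have b5 := mul_le_mul_of_nonneg_left b1 a1.le
        have b6 := mul_le_mul_of_nonneg_left b3 a1.le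
        have e5 : A k * (1 / (N k : ℝ)) ^ 2 = A k / (N k : ℝ) ^ 2 := by
          rw [one_div, inv_pow, div_eq_mul_inv]
        rw [e5] at b6
        nlinarith
      gcongr
    have n1 : ‖∫ θ in (-Real.pi)..(-(1 / N k : ℝ)), F k θ‖ ≤
        Real.exp (-(√(A k) / 16)) * C * Real.pi := by
      refine (intervalIntegral.norm_integral_le_of_norm_le_const
        (C := Real.exp (-(√(A k) / 16)) * C) fun θ hθ => ?_).trans ?_
      · rw [uIoc_of_le (by linarith)] at hθ
        apply hbd θ
        · rw [abs_of_neg (by linarith [hθ.2])]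
          linarith [hθ.2]
        · rw [abs_of_neg (by linarith [hθ.2])]
          linarith [hθ.1]
      · gcongr
        rw [abs_of_nonneg (by linarith)]
        linarith
    have n2 : ‖∫ θ in (1 / N k : ℝ)..Real.pi, F k θ‖ ≤
        Real.exp (-(√(A k) / 16)) * C * Real.pi := by
      refine (intervalIntegral.norm_integral_le_of_norm_le_const
        (C := Real.exp (-(√(A k) / 16)) * C) fun θ hθ => ?_).trans ?_
      · rw [uIoc_of_le (by linarith)] at hθ
        apply hbd θ
        · rw [abs_of_pos (by linarith [hθ.1])]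
          exact hθ.1.le
        · rw [abs_of_pos (by linarith [hθ.1])]
          exact hθ.2
      · gcongr
        rw [abs_of_nonneg (by linarith)]
        linarith
    rw [hsplit, hMk]
    have e6 : ∀ a b c d : ℂ, a * (b + c + d) - a * c = a * (b + d) := by intros; ring
    rw [e6, norm_mul, Complex.norm_real, Real.norm_eq_abs, abs_of_pos hs0]
    have n3 := norm_add_le (∫ θ in (-Real.pi)..(-(1 / N k : ℝ)), F k θ)
      (∫ θ in (1 / N k : ℝ)..Real.pi, F k θ)
    calc s k * ‖(∫ θ in (-Real.pi)..(-(1 / N k : ℝ)), F k θ) +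
          ∫ θ in (1 / N k : ℝ)..Real.pi, F k θ‖
        ≤ A k * (2 * (Real.exp (-(√(A k) / 16)) * C * Real.pi)) := by
          apply mul_le_mul a4 (n3.trans (by linarith)) (norm_nonneg _) a1.le
      _ = _ := by ring
  -- the error tends to zero
  have hsmall : Tendsto (fun k => 2 * Real.pi * C * (A k * Real.exp (-(√(A k) / 16)))) atTop
      (𝓝 0) := by
    have c1 : Tendsto (fun x : ℝ => x ^ 2 * Real.exp (-x)) atTop (𝓝 0) :=
      Real.tendsto_pow_mul_exp_neg_atTop_nhds_zero 2
    have c2 : Tendsto (fun k => √(A k) / 16) atTop atTop :=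
      (Real.tendsto_sqrt_atTop.comp hAlim).atTop_div_const (by norm_num)
    have c3 := (c1.comp c2).const_mul (2 * Real.pi * C * 256)
    rw [mul_zero] at c3
    refine c3.congr' ?_
    filter_upwards [hev] with k hk
    obtain ⟨a1, -⟩ := scale hk (hA k)
    simp only [Function.comp_apply]
    have := Real.sq_sqrt a1.le
    rw [div_pow, this]
    ring
  have hfin : Tendsto (fun k => (s k : ℂ) * ∫ θ in (-Real.pi)..Real.pi, F k θ) atTop
      (𝓝 (((√(2 * Real.pi) : ℝ) : ℂ) * g0)) := by
    rw [← gauss_int]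
    have c4 : Tendsto (fun k => (s k : ℂ) * (∫ θ in (-Real.pi)..Real.pi, F k θ) - M k) atTop
        (𝓝 0) := squeeze_zero_norm' herr hsmall
    have c5 := c4.add hM1
    rw [zero_add] at c5
    refine c5.congr fun k => ?_
    ring
  have hne : ((√(2 * Real.pi) : ℝ) : ℂ) * g0 ≠ 0 := by
    refine mul_ne_zero ?_ hg0
    exact_mod_cast (Real.sqrt_pos.2 (by positivity)).ne'
  filter_upwards [hfin.eventually_ne hne] with k hk h0
  apply hk
  rw [h0, mul_zero]

end Pool.Agent.Y290.ES
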