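import Pool.Agent.Y245.SC.Stm4

/-!
# Normal radii of an entire function
-/

set_option autoImplicit false

namespace Pool.Agent.Y290.ES

open Pool.Agent.Y245.SC Set Filter Topology

/-- the comparison function -/
noncomputable def lam (s : ℝ) : ℝ := 256 / 15 * s ^ (15 / 16 : ℝ)

theorem lam_deriv {s : ℝ} (hs : 0 < s) : HasDerivAt lam (16 * s ^ (-(1 / 16) : ℝ)) s := by
  have h1 := (Real.hasDerivAt_rpow_const (p := (15 / 16 : ℝ)) (Or.inl hs.ne')).const_mul
    (256 / 15 : ℝ)
  have h2 : (256 / 15 : ℝ) * (15 / 16 * s ^ (15 / 16 - 1 : ℝ)) = 16 * s ^ (-(1 / 16) : ℝ) := by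
    rw [show (15 / 16 - 1 : ℝ) = -(1 / 16) by norm_num]
    ring
  rw [h2] at h1
  exact h1

theorem lam_cont : Continuous lam := by
  unfold lam
  exact continuous_const.mul (Real.continuous_rpow_const (by norm_num))

/-- the second derivative -/
theorem step1 {u v M : ℝ} (hu : 0 < u) (huv : u ≤ v) (hv : v ≤ M) :
    16 * v ^ (-(1 / 16) : ℝ) - 16 * u ^ (-(1 / 16) : ℝ) ≤ -((v - u) / M ^ (17 / 16 : ℝ)) := by
  have hd : ∀ s : ℝ, 0 < s → HasDerivAt
      (fun s : ℝ => 16 * s ^ (-(1 / 16) : ℝ) + s * (M ^ (17 / 16 : ℝ))⁻¹)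
      (-(s ^ (-(17 / 16) : ℝ)) + (M ^ (17 / 16 : ℝ))⁻¹) s := by
    intro s hs
    have h1 := (Real.hasDerivAt_rpow_const (p := (-(1 / 16) : ℝ)) (Or.inl hs.ne')).const_mul
      (16 : ℝ)
    have h2 : (16 : ℝ) * (-(1 / 16) * s ^ (-(1 / 16) - 1 : ℝ)) = -(s ^ (-(17 / 16) : ℝ)) := by
      rw [show (-(1 / 16) - 1 : ℝ) = -(17 / 16) by norm_num]
      ring
    rw [h2] at h1
    have h3 := (hasDerivAt_id s).mul_const (M ^ (17 / 16 : ℝ))⁻¹
    rw [one_mul] at h3
    exact h1.add h3
  have hanti : AntitoneOn (fun s : ℝ => 16 * s ^ (-(1 / 16) : ℝ) + s * (M ^ (17 / 16 : ℝ))⁻¹)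
      (Icc u M) := by
    apply antitoneOn_of_deriv_nonpos (convex_Icc u M)
    · intro s hs
      exact (hd s (hu.trans_le hs.1)).continuousAt.continuousWithinAt
    · intro s hs
      rw [interior_Icc] at hs
      exact (hd s (hu.trans hs.1)).differentiableAt.differentiableWithinAt
    · intro s hs
      rw [interior_Icc] at hs
      have hs0 : 0 < s := hu.trans hs.1
      rw [(hd s hs0).deriv, Real.rpow_neg hs0.le]
      have h1 : s ^ (17 / 16 : ℝ) ≤ M ^ (17 / 16 : ℝ) :=
        Real.rpow_le_rpow hs0.le hs.2.le (by norm_num)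
      have h2 := inv_anti₀ (Real.rpow_pos_of_pos hs0 _) h1
      linarith
  have h1 := hanti ⟨le_refl u, huv.trans hv⟩ ⟨huv, hv⟩ huv
  simp only at h1
  rw [div_eq_mul_inv (v - u)]
  linarith

/-- Taylor's inequality -/
theorem step2 {x y : ℝ} (hx : 0 ≤ x) (hy : 0 < y) :
    lam x - lam y - 16 * y ^ (-(1 / 16) : ℝ) * (x - y) ≤
      -((x - y) ^ 2 / (2 * (max x y) ^ (17 / 16 : ℝ))) := by
  set M : ℝ := max x y with hM
  set c : ℝ := (M ^ (17 / 16 : ℝ))⁻¹ with hc
  set ψ : ℝ → ℝ := fun s => lam s - lam y - 16 * y ^ (-(1 / 16) : ℝ) * (s - y) +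
    c / 2 * (s - y) ^ 2 with hψ
  have hM0 : 0 < M := hy.trans_le (le_max_right _ _)
  have hψc : Continuous ψ := by
    rw [hψ]
    have := lam_cont
    fun_prop
  have hψd : ∀ s : ℝ, 0 < s → HasDerivAt ψ (16 * s ^ (-(1 / 16) : ℝ) -
      16 * y ^ (-(1 / 16) : ℝ) + c * (s - y)) s := by
    intro s hs
    have h1 := (((lam_deriv hs).sub_const (lam y)).sub
      (((hasDerivAt_id s).sub_const y).const_mul (16 * y ^ (-(1 / 16) : ℝ)))).add
      ((((hasDerivAt_id s).sub_const y).pow 2).const_mul (c / 2))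
    refine h1.congr_deriv ?_
    simp only [id]
    ring
  have hψy : ψ y = 0 := by rw [hψ]; simp
  have hψx : ψ x ≤ 0 := by
    rcases le_total y x with h | h
    · have hanti : AntitoneOn ψ (Icc y M) := by
        apply antitoneOn_of_deriv_nonpos (convex_Icc y M) hψc.continuousOn
        · intro s hs
          rw [interior_Icc] at hs
          exact (hψd s (hy.trans hs.1)).differentiableAt.differentiableWithinAt
        · intro s hs
          rw [interior_Icc] at hs
          rw [(hψd s (hy.trans hs.1)).deriv]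
          have h1 := step1 hy hs.1.le hs.2.le
          rw [div_eq_mul_inv (s - y), ← hc] at h1
          linarith
      rw [← hψy]
      exact hanti ⟨le_refl y, le_max_right _ _⟩ ⟨h, le_max_left _ _⟩ h
    · have hmono : MonotoneOn ψ (Icc 0 y) := by
        apply monotoneOn_of_deriv_nonneg (convex_Icc 0 y) hψc.continuousOn
        · intro s hs
          rw [interior_Icc] at hs
          exact (hψd s hs.1).differentiableAt.differentiableWithinAt
        · intro s hs
          rw [interior_Icc] at hs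
          rw [(hψd s hs.1).deriv]
          have h1 := step1 hs.1 hs.2.le (le_max_right x y)
          rw [div_eq_mul_inv (y - s), ← hM, ← hc] at h1
          linarith
      rw [← hψy]
      exact hmono ⟨hx, h⟩ ⟨hy.le, le_refl y⟩ h
  have h1 : (x - y) ^ 2 / (2 * M ^ (17 / 16 : ℝ)) = c / 2 * (x - y) ^ 2 := by
    rw [hc]
    field_simp
  rw [h1]
  rw [hψ] at hψx
  simp only at hψx
  linarith

/-- a sequence tending to zero with a positive term has a maximum -/
theorem exists_max {b : ℕ → ℝ} (hb : Tendsto b atTop (𝓝 0)) {n1 : ℕ} (h1 : 0 < b n1) :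
    ∃ N, ∀ n, b n ≤ b N := by
  obtain ⟨K, hK⟩ := (hb.eventually (gt_mem_nhds h1)).exists_forall_of_atTop
  obtain ⟨N, -, hN⟩ := Finset.exists_max_image (Finset.range (max K n1 + 1)) b
    ⟨0, Finset.mem_range.2 (Nat.succ_pos _)⟩
  refine ⟨N, fun n => ?_⟩
  by_cases hn : n < max K n1 + 1
  · exact hN n (Finset.mem_range.2 hn)
  · have h2 := hK n (by have := le_max_left K n1; omega)
    have h3 := hN n1 (Finset.mem_range.2 (by have := le_max_right K n1; omega))
    linarith

theorem norm_thm : S_NORM := by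
  intro f hf hinf N0
  set g : ℕ → ℝ := fun n => ‖f n‖ * Real.exp (-lam n) with hg
  have hg0 : ∀ n, 0 ≤ g n := fun n => by rw [hg]; positivity
  obtain ⟨n1, hn1, hfn1⟩ := hinf (N0 + 1)
  have hgn1 : 0 < g n1 := by
    rw [hg]
    have := norm_pos_iff.2 hfn1
    positivity
  set G : ℝ := ∑ m ∈ Finset.range (N0 + 1), g m with hG
  have hG0 : 0 ≤ G := Finset.sum_nonneg fun m _ => hg0 m
  set t : ℝ := max (max 1 (G / g n1 + 1)) (N0 * Real.exp 16) with ht
  have ht1 : 1 ≤ t := (le_max_left _ _).trans (le_max_left _ _)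
  have ht2 : G / g n1 + 1 ≤ t := (le_max_right _ _).trans (le_max_left _ _)
  have ht3 : N0 * Real.exp 16 ≤ t := le_max_right _ _
  have ht0 : 0 < t := by linarith
  have hlam0 : ∀ n : ℕ, 0 ≤ lam n := fun n => by
    unfold lam
    positivity
  have hlim : Tendsto (fun n => g n * t ^ n) atTop (𝓝 0) := by
    refine squeeze_zero (fun n => mul_nonneg (hg0 n) (by positivity)) (fun n => ?_)
      (hf t ht0).tendsto_atTop_zero
    rw [hg]
    have h1 : Real.exp (-lam n) ≤ 1 := Real.exp_le_one_iff.2 (by linarith [hlam0 n])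
    have h2 := norm_nonneg (f n)
    have h3 : (0 : ℝ) ≤ t ^ n := by positivity
    exact mul_le_mul_of_nonneg_right (mul_le_of_le_one_right h2 h1) h3
  have hpos1 : 0 < g n1 * t ^ n1 := by positivity
  obtain ⟨N, hN⟩ := exists_max hlim hpos1
  have hNN : N0 < N := by
    by_contra hcon
    push Not at hcon
    have h1 := hN n1
    have h2 : g N ≤ G := Finset.single_le_sum (fun m _ => hg0 m)
      (Finset.mem_range.2 (by omega))
    have h3 : t ^ N ≤ t ^ N0 := pow_le_pow_right₀ ht1 hcon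
    have h4 : t ^ (N0 + 1) ≤ t ^ n1 := pow_le_pow_right₀ ht1 hn1
    have h5 : G < g n1 * t := by
      have h6 : G / g n1 < t := by linarith
      rwa [div_lt_iff₀ hgn1, mul_comm] at h6
    have h6 : 0 < t ^ N0 := by positivity
    have h7 : g n1 * t ^ n1 ≤ G * t ^ N0 := h1.trans (by
      have := hg0 N
      gcongr)
    have h8 : g n1 * t ^ (N0 + 1) ≤ g n1 * t ^ n1 := by gcongr
    rw [pow_succ] at h8
    have h9 : G * t ^ N0 < g n1 * t * t ^ N0 := by gcongr
    nlinarith
  have hNpos : 0 < N := by omega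
  have hNR : (1 : ℝ) ≤ N := by exact_mod_cast hNpos
  have hfN : f N ≠ 0 := by
    intro h0
    have h1 := hN n1
    have h2 : g N = 0 := by rw [hg]; simp only [h0, norm_zero, zero_mul]
    rw [h2, zero_mul] at h1
    linarith
  set L : ℝ := 16 * (N : ℝ) ^ (-(1 / 16) : ℝ) with hL
  have hL16 : L ≤ 16 := by
    have h1 : (N : ℝ) ^ (-(1 / 16) : ℝ) ≤ 1 :=
      Real.rpow_le_one_of_one_le_of_nonpos hNR (by norm_num)
    rw [hL]
    linarith
  refine ⟨N, t * Real.exp (-L), hNN.le, ?_, hNpos, hfN, fun n => ?_⟩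
  · have h1 : Real.exp (-16) ≤ Real.exp (-L) := Real.exp_le_exp.2 (by linarith)
    have h2 : (N0 : ℝ) = N0 * Real.exp 16 * Real.exp (-16) := by
      rw [mul_assoc, ← Real.exp_add]
      norm_num
    rw [h2]
    gcongr
  · have e1 : ∀ m : ℕ, ‖f m‖ * (t * Real.exp (-L)) ^ m =
        g m * t ^ m * Real.exp (lam m - L * m) := by
      intro m
      rw [hg]
      simp only
      rw [mul_pow, ← Real.exp_nat_mul, sub_eq_add_neg, Real.exp_add]
      have h1 : Real.exp (-lam m) * Real.exp (lam m) = 1 := by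
        rw [← Real.exp_add, neg_add_cancel, Real.exp_zero]
      have h2 : (m : ℝ) * -L = -(L * m) := by ring
      rw [h2]
      linear_combination (-(‖f m‖ * t ^ m * Real.exp (-(L * m)))) * h1
    rw [e1 n, e1 N, mul_assoc (g N * t ^ N), ← Real.exp_add]
    have h1 := step2 (x := n) (y := N) (Nat.cast_nonneg n) (by linarith)
    rw [← hL] at h1
    have h2 : lam n - L * n ≤ lam N - L * N +
        -(((n : ℝ) - N) ^ 2 / (2 * (max (n : ℝ) N) ^ (17 / 16 : ℝ))) := by
      linarith
    have h3 := Real.exp_le_exp.2 h2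
    exact mul_le_mul (hN n) h3 (Real.exp_pos _).le (mul_nonneg (hg0 N) (by positivity))

end Pool.Agent.Y290.ES
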