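import Pool.Agent.Y245.SC.Stm5
import Pool.Agent.Y290.ES.Norm

/-!
# Normal radii of an entire function, with the exact comparison function
-/

set_option autoImplicit false

namespace Pool.Agent.Y290.ES

open Pool.Agent.Y245.SC Set Filter Topology

/-- normal radii, with the exact comparison function -/
theorem norm_lam (f : ℕ → ℂ) (hf : ∀ R : ℝ, 0 < R → Summable fun n => ‖f n‖ * R ^ n)
    (hinf : ∀ n0 : ℕ, ∃ n ≥ n0, f n ≠ 0) (N0 : ℕ) : ∃ (N : ℕ) (r : ℝ), N0 ≤ N ∧ (N0 : ℝ) ≤ r ∧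
    0 < N ∧ f N ≠ 0 ∧ ∀ n : ℕ, ‖f n‖ * r ^ n ≤ ‖f N‖ * r ^ N *
      Real.exp (256 / 15 * ((n : ℝ) ^ (15 / 16 : ℝ) - (N : ℝ) ^ (15 / 16 : ℝ)) -
        16 * (N : ℝ) ^ (-(1 / 16 : ℝ)) * ((n : ℝ) - N)) := by
  set g : ℕ → ℝ := fun n => ‖f n‖ * Real.exp (-lam n) with hg
  have hg0 : ∀ n, 0 ≤ g n := fun n => by rw [hg]; positivity
  obtain ⟨n1, hn1, hfn1⟩ := hinf (N0 + 1)
  have hgn1 : 0 < g n1 := by
    rw [hg]
    have := norm_pos_iff.2 hfn1
    positivity
  set G : ℝ := ∑ m ∈ Finset.range (N0 + 1), g m with hG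
  have hG0 : 0 ≤ G := Finset.sum_nonneg fun m _ => hg0 m
  set t : ℝ := max (max 1 (G / g n1 + 1)) (N0 * Real.exp 16) with ht
  have ht1 : 1 ≤ t := (le_max_left _ _).trans (le_max_left _ _)
  have ht2 : G / g n1 + 1 ≤ t := (le_max_right _ _).trans (le_max_left _ _)
  have ht3 : N0 * Real.exp 16 ≤ t := le_max_right _ _
  have ht0 : 0 < t := by linarith
  have hlam0 : ∀ n : ℕ, 0 ≤ lam n := fun n => by
    unfold lam
    positivity
  have hlim : Tendsto (fun n => g n * t ^ n) atTop (𝓝 0) := by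
    refine squeeze_zero (fun n => mul_nonneg (hg0 n) (by positivity)) (fun n => ?_)
      (hf t ht0).tendsto_atTop_zero
    rw [hg]
    have h1 : Real.exp (-lam n) ≤ 1 := Real.exp_le_one_iff.2 (by linarith [hlam0 n])
    have h2 := norm_nonneg (f n)
    have h3 : (0 : ℝ) ≤ t ^ n := by positivity
    exact mul_le_mul_of_nonneg_right (mul_le_of_le_one_right h2 h1) h3
  have hpos1 : 0 < g n1 * t ^ n1 := by positivity
  obtain ⟨N, hN⟩ := exists_max hlim hpos1
  have hNN : N0 < N := by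
    by_contra hcon
    push Not at hcon
    have h1 := hN n1
    have h2 : g N ≤ G := Finset.single_le_sum (fun m _ => hg0 m)
      (Finset.mem_range.2 (by omega))
    have h3 : t ^ N ≤ t ^ N0 := pow_le_pow_right₀ ht1 hcon
    have h4 : t ^ (N0 + 1) ≤ t ^ n1 := pow_le_pow_right₀ ht1 hn1
    have h5 : G < g n1 * t := by
      have h6 : G / g n1 < t := by linarith
      rwa [div_lt_iff₀ hgn1, mul_comm] at h6
    have h6 : 0 < t ^ N0 := by positivity
    have h7 : g n1 * t ^ n1 ≤ G * t ^ N0 := h1.trans (by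
      have := hg0 N
      gcongr)
    have h8 : g n1 * t ^ (N0 + 1) ≤ g n1 * t ^ n1 := by gcongr
    rw [pow_succ] at h8
    have h9 : G * t ^ N0 < g n1 * t * t ^ N0 := by gcongr
    nlinarith
  have hNpos : 0 < N := by omega
  have hNR : (1 : ℝ) ≤ N := by exact_mod_cast hNpos
  have hfN : f N ≠ 0 := by
    intro h0
    have h1 := hN n1
    have h2 : g N = 0 := by rw [hg]; simp only [h0, norm_zero, zero_mul]
    rw [h2, zero_mul] at h1
    linarith
  set L : ℝ := 16 * (N : ℝ) ^ (-(1 / 16) : ℝ) with hL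
  have hL16 : L ≤ 16 := by
    have h1 : (N : ℝ) ^ (-(1 / 16) : ℝ) ≤ 1 :=
      Real.rpow_le_one_of_one_le_of_nonpos hNR (by norm_num)
    rw [hL]
    linarith
  refine ⟨N, t * Real.exp (-L), hNN.le, ?_, hNpos, hfN, fun n => ?_⟩
  · have h1 : Real.exp (-16) ≤ Real.exp (-L) := Real.exp_le_exp.2 (by linarith)
    have h2 : (N0 : ℝ) = N0 * Real.exp 16 * Real.exp (-16) := by
      rw [mul_assoc, ← Real.exp_add]
      norm_num
    rw [h2]
    gcongr
  · have e1 : ∀ m : ℕ, ‖f m‖ * (t * Real.exp (-L)) ^ m =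
        g m * t ^ m * Real.exp (lam m - L * m) := by
      intro m
      rw [hg]
      simp only
      rw [mul_pow, ← Real.exp_nat_mul, sub_eq_add_neg, Real.exp_add]
      have h1 : Real.exp (-lam m) * Real.exp (lam m) = 1 := by
        rw [← Real.exp_add, neg_add_cancel, Real.exp_zero]
      have h2 : (m : ℝ) * -L = -(L * m) := by ring
      rw [h2]
      linear_combination (-(‖f m‖ * t ^ m * Real.exp (-(L * m)))) * h1
    rw [e1 n, e1 N, mul_assoc (g N * t ^ N), ← Real.exp_add]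
    have h2 : lam n - L * n = lam N - L * N +
        (256 / 15 * ((n : ℝ) ^ (15 / 16 : ℝ) - (N : ℝ) ^ (15 / 16 : ℝ)) -
          L * ((n : ℝ) - N)) := by
      unfold lam
      ring
    rw [h2]
    exact mul_le_mul_of_nonneg_right (hN n) (Real.exp_pos _).le

/-- the comparison function, quadratic bound -/
theorem lam_quad {x y : ℝ} (hx : 0 ≤ x) (hy : 0 < y) :
    256 / 15 * (x ^ (15 / 16 : ℝ) - y ^ (15 / 16 : ℝ)) - 16 * y ^ (-(1 / 16 : ℝ)) * (x - y) ≤
      -((x - y) ^ 2 / (2 * (max x y) ^ (17 / 16 : ℝ))) := by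
  have h1 := step2 hx hy
  unfold lam at h1
  linarith

theorem two1 : (2 : ℝ) ^ (15 / 16 : ℝ) ≤ 1.9228 := by
  by_contra hcon
  push Not at hcon
  have h1 : (1.9228 : ℝ) ^ 16 < ((2 : ℝ) ^ (15 / 16 : ℝ)) ^ 16 :=
    pow_lt_pow_left₀ hcon (by norm_num) (by norm_num)
  rw [← Real.rpow_natCast, ← Real.rpow_natCast, ← Real.rpow_mul (by norm_num)] at h1
  norm_num at h1

theorem two2 : (2 : ℝ) ^ (-(1 / 16) : ℝ) ≤ 0.984 := by
  by_contra hcon
  push Not at hcon
  have h1 : (0.984 : ℝ) ^ 16 < ((2 : ℝ) ^ (-(1 / 16) : ℝ)) ^ 16 :=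
    pow_lt_pow_left₀ hcon (by norm_num) (by norm_num)
  rw [← Real.rpow_natCast, ← Real.rpow_natCast, ← Real.rpow_mul (by norm_num)] at h1
  norm_num at h1

/-- the comparison function, linear bound -/
theorem lam_lin {x y : ℝ} (hy : 0 < y) (hxy : 2 * y ≤ x) :
    256 / 15 * (x ^ (15 / 16 : ℝ) - y ^ (15 / 16 : ℝ)) - 16 * y ^ (-(1 / 16 : ℝ)) * (x - y) ≤
      -((x - y) / (4 * y ^ (1 / 16 : ℝ))) := by
  set c : ℝ := y ^ (-(1 / 16) : ℝ) with hc
  have hc0 : 0 < c := Real.rpow_pos_of_pos hy _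
  have hcinv : (x - y) / (4 * y ^ (1 / 16 : ℝ)) = c / 4 * (x - y) := by
    rw [hc, Real.rpow_neg hy.le]
    field_simp
  rw [hcinv]
  set ψ : ℝ → ℝ := fun s => lam s - lam y - 16 * c * (s - y) + c / 4 * (s - y) with hψ
  have hψc : Continuous ψ := by
    rw [hψ]
    have := lam_cont
    fun_prop
  have hψd : ∀ s : ℝ, 0 < s → HasDerivAt ψ (16 * s ^ (-(1 / 16) : ℝ) - 16 * c + c / 4) s := by
    intro s hs
    have h1 := (((lam_deriv hs).sub_const (lam y)).sub
      (((hasDerivAt_id s).sub_const y).const_mul (16 * c))).add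
      (((hasDerivAt_id s).sub_const y).const_mul (c / 4))
    refine h1.congr_deriv ?_
    ring
  have h2y : 0 < 2 * y := by linarith
  have hanti : AntitoneOn ψ (Icc (2 * y) x) := by
    apply antitoneOn_of_deriv_nonpos (convex_Icc (2 * y) x) hψc.continuousOn
    · intro s hs
      rw [interior_Icc] at hs
      exact (hψd s (h2y.trans hs.1)).differentiableAt.differentiableWithinAt
    · intro s hs
      rw [interior_Icc] at hs
      have hs0 : 0 < s := h2y.trans hs.1
      rw [(hψd s hs0).deriv]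
      have h1 : s ^ (-(1 / 16) : ℝ) ≤ (2 * y) ^ (-(1 / 16) : ℝ) :=
        Real.rpow_le_rpow_of_nonpos h2y hs.1.le (by norm_num)
      rw [Real.mul_rpow (by norm_num) hy.le, ← hc] at h1
      have h3 := mul_le_mul_of_nonneg_right two2 hc0.le
      linarith
  have hend : ψ (2 * y) ≤ 0 := by
    rw [hψ]
    simp only
    unfold lam
    rw [Real.mul_rpow (by norm_num) hy.le]
    have h1 : y ^ (15 / 16 : ℝ) = c * y := by
      rw [hc]
      nth_rewrite 3 [← Real.rpow_one y]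
      rw [← Real.rpow_add hy]
      norm_num
    rw [h1]
    have h2 : 0 < c * y := by positivity
    have h3 := mul_le_mul_of_nonneg_right two1 h2.le
    nlinarith
  have hfin := (hanti ⟨le_refl _, hxy⟩ ⟨hxy, le_refl _⟩ hxy).trans hend
  rw [hψ] at hfin
  simp only at hfin
  unfold lam at hfin
  linarith

theorem norm2_thm : S_NORM2 := by
  intro f hf hinf N0
  obtain ⟨N, r, h1, h2, h3, h4, h5⟩ := norm_lam f hf hinf N0
  have hN : (0 : ℝ) < N := by exact_mod_cast h3
  have hr : (0 : ℝ) ≤ r := (Nat.cast_nonneg N0).trans h2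
  refine ⟨N, r, h1, h2, h3, h4, fun n => (h5 n).trans ?_, fun n hn => (h5 n).trans ?_⟩
  · exact mul_le_mul_of_nonneg_left (Real.exp_le_exp.2 (lam_quad (Nat.cast_nonneg n) hN))
      (by positivity)
  · exact mul_le_mul_of_nonneg_left (Real.exp_le_exp.2 (lam_lin hN (by exact_mod_cast hn)))
      (by positivity)

end Pool.Agent.Y290.ES
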